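import Mathlib
import Pool.Agent.TH504.VL.Large

/-!
# The variational Hodge conjecture for families of abelian varieties with many moduli

A polarized abelian scheme over a smooth connected variety `S` is given, up to isogeny, locally on
`S` (or over the universal covering of `S`, if this is an open subset of `ℂ ^ k`) and after the
choice of a basis of the homology of one fibre, by a holomorphic family of symmetric `g × g`
matrices `Z t` with positive definite imaginary part, `t` in a connected open subset `U` of
`ℂ ^ k`: the fibre is `ℂ ^ g / (ℤ ^ g + Z(t) ℤ ^ g)`. The rational homology of all fibres is
identified with `ℚ ^ g ⊕ ℚ ^ g`, and the flat classes are the alternating forms on this space.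
The Kodaira-Spencer map at `s` is the derivative of `Z` at `s`, from the tangent space of the base
to the symmetric matrices; its rank is the number of moduli of the family at `s`.

Let `A i` be finitely many such families over the same `U`. Suppose that each of them has a simple
fibre, that the centre of its endomorphism algebra is totally real and that at some point the rank
of the Kodaira-Spencer map is more than `(g i - 1) ^ 2 / 8`. Then the variational Hodge
conjecture holds for all fibre products `X` of the families `A i` (repetitions allowed), in all
degrees: a flat class which is a Hodge class on all fibres of `X` (by the theorem of the fixed part
this is so for a global section which is algebraic on one fibre) is a linear combination of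
products of flat classes of degree two which are Hodge classes on all fibres. By the Lefschetz
theorem these are algebraic on every fibre. It suffices to know this over one coordinate
neighbourhood `U` of the base, as the flat classes of degree two remain Hodge classes by analytic
continuation.

For `g ≤ 3` the condition on the rank says that the family is not constant, for `g = 4` that there
are two moduli. The bound is optimal for all even `g ≥ 4`: the families of
simple abelian varieties whose endomorphism algebra is a definite quaternion algebra over `ℚ`
(type III) have up to `g (g - 2) / 8 = ((g - 1) ^ 2 - 1) / 8` moduli, and their powers carry Hodge
classes on all fibres which are not polynomials in divisor classes. For `g = 4`, one modulus, there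
are also the families of Mumford.

The proof. For a very general `t` the complexified Hodge Lie algebra `L` of the fibre contains the
Hodge operators of all fibres. Let `W` be the space of the symmetric matrices `N` such that the map
`T N Tᵀ Ω` is in `L`, where `T` spans the subspace of type (-1, 0); the difference quotients of the
Hodge operators show that `W` contains the image of the Kodaira-Spencer map. As `L` is stable
under complex conjugation, `W` is stable under a triple product, and its dimension is more than
`(g - 1) ^ 2 / 8`; so `W` contains a nonzero matrix of rank at most three. If the rank is odd
then `L` contains a matrix of rank one, and if it is two the homology is a sum of stable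
subspaces on which `L` acts as the full symplectic Lie algebra, as the centre is totally real.
The last steps are the theorems of the starting files `Pool/Agent/W437/HR/*.lean`, where they are
proved for the Lie algebra generated by the conjugates of the Hodge operator of one abelian variety
and the number of algebraically independent periods.
-/

namespace Pool.Agent.Results.MP_e9c0f3_ag.LargeFamilies

open Pool.Agent.H204R3.CM Pool.Agent.H194R3.CM Pool.Agent.W437.HC Pool.Agent.W437.HD
  Pool.Agent.W437.HP Pool.Agent.TH504.VL

/-- The variational Hodge conjecture for the fibre products `A (c 0) × ... × A (c (n - 1))` of
large families `A i` over a connected open subset `U` of `ℂ ^ k`: flat classes `f` of degree `2 m`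
which are Hodge classes on all fibres are linear combinations of products of flat classes of
degree two which are Hodge classes on all fibres. -/
theorem result {ι : Type} [Fintype ι] {k : ℕ} {U : Set (Fin k → ℂ)} (hU : IsOpen U)
    (hc : IsPreconnected U) (hne : U.Nonempty) {g : ι → ℕ}
    (Z : ∀ i, (Fin k → ℂ) → Matrix (Fin (g i)) (Fin (g i)) ℂ)
    (hlarge : ∀ i, IsLargeFamily U (Z i)) {n m : ℕ} (c : Fin n → ι)
    (f : (∀ j, Fin (g (c j)) ⊕ Fin (g (c j)) → ℚ) [⋀^Fin m × Fin 2]→ₗ[ℚ] ℚ)
    (hf : ∀ t ∈ U, IsHodge (perFam (fun i => Z i t) c) f) :
    f ∈ flatDivisorial U (fun t => perFam (fun i => Z i t) c) m :=
  vhc hU hc hne Z hlarge c f hf

end Pool.Agent.Results.MP_e9c0f3_ag.LargeFamilies
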